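import Pool.Agent.W798.SP.Stm

/-!
# Project SPX: part PO (helper372)
-/

set_option autoImplicit false
set_option linter.all false

open Finset
open scoped Classical Pointwise

namespace Pool.Agent.W372.SP

open Pool.Agent.W904.AK Pool.Agent.W798.SP

theorem natlog_le (N : ℕ) (hN : 1 ≤ N) : (Nat.log 2 N : ℝ) ≤ 2 * Real.log N := by
  have h1 : 2 ^ Nat.log 2 N ≤ N := Nat.pow_log_le_self 2 (by omega)
  have h2 : ((2 : ℝ)) ^ Nat.log 2 N ≤ N := by exact_mod_cast h1
  have h3 := Real.log_le_log (by positivity) h2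
  rw [Real.log_pow] at h3
  have h4 : (1 : ℝ) / 2 < Real.log 2 := by
    have := Real.log_two_gt_d9
    linarith
  have h5 : (0 : ℝ) ≤ (Nat.log 2 N : ℝ) := Nat.cast_nonneg _
  nlinarith

theorem lj_le {η : ℝ} (hη : 0 < η) (N : ℕ) (hN : 1 ≤ N) :
    Real.log (2 * ((Nat.log 2 N : ℝ) + 1) + 1) ≤ η * (3 + 4 * Real.log N) - Real.log η := by
  have h0 : (0 : ℝ) ≤ (Nat.log 2 N : ℝ) := Nat.cast_nonneg _
  have h1 := Real.log_le_sub_one_of_pos (x := η * (2 * ((Nat.log 2 N : ℝ) + 1) + 1)) (by positivity)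
  rw [Real.log_mul hη.ne' (by positivity)] at h1
  have h2 := natlog_le N hN
  have h3 : η * (2 * ((Nat.log 2 N : ℝ) + 1) + 1) ≤ η * (3 + 4 * Real.log N) :=
    mul_le_mul_of_nonneg_left (by linarith) hη.le
  linarith

theorem Cst_le {m J : ℕ} (h : Nat.log 2 m + 1 ≤ 2 * J + 1) :
    Cst m ≤ Real.log 4097 + Real.log (2 * (J : ℝ) + 1) := by
  unfold Cst
  have h1 : ((Nat.log 2 m : ℝ) + 1) ≤ 2 * (J : ℝ) + 1 := by exact_mod_cast h
  have h2 : (0 : ℝ) ≤ (Nat.log 2 m : ℝ) := Nat.cast_nonneg _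
  rw [← Real.log_mul (by norm_num) (by positivity)]
  exact Real.log_le_log (by positivity) (mul_le_mul_of_nonneg_left h1 (by norm_num))

/-- the logarithmic form -/
theorem main (hAS : S_AS) (hDY : S_DY) (hEN : S_EN) (hCS : S_CS) {δ : ℝ} (hδ : 0 < δ)
    (A : Finset ℝ) (hA : A.Nonempty) (hpos : ∀ x ∈ A, 0 < x) :
    (270 - δ) * Real.log A.card ≤ 123 * Real.log (A + A).card + 79 * Real.log (A * A).card +
      (|417 * Real.log 2 + 120 * Real.log 80 + 13 * Real.log 4097 +
        154 * (3 * (δ / 400) - Real.log (δ / 400))| +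
      |79 * Real.log 18 + 79 * (3 * (δ / 400) - Real.log (δ / 400))|) := by
  obtain ⟨η, hηd⟩ : ∃ η : ℝ, η = δ / 400 := ⟨_, rfl⟩
  have hη : 0 < η := by rw [hηd]; positivity
  rw [← hηd]
  obtain ⟨N, hNd⟩ : ∃ N : ℕ, N = A.card := ⟨_, rfl⟩
  obtain ⟨K, hKd⟩ : ∃ K : ℕ, K = (A + A).card := ⟨_, rfl⟩
  obtain ⟨P, hPd⟩ : ∃ P : ℕ, P = (A * A).card := ⟨_, rfl⟩
  have hN1 : 1 ≤ N := by rw [hNd]; exact hA.card_pos
  have hNK : N ≤ K := by rw [hNd, hKd]; exact Finset.card_le_card_add_self
  have hP1 : 1 ≤ P := by rw [hPd]; exact (hA.mul hA).card_pos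
  have hPN : P ≤ N * N := by rw [hPd, hNd]; exact Finset.card_mul_le
  have hK1 : 1 ≤ K := hN1.trans hNK
  obtain ⟨T, S, hT1, hTN, hS, hE1, hE2⟩ := hDY A hA hpos
  have hEN1 := hEN A hpos
  have hCS1 := (hCS A hpos).1
  have hAS1 := hAS A S T
  rw [← hNd, ← hPd] at hE1 hCS1
  rw [← hNd] at hTN hE2
  rw [← hNd, ← hKd] at hEN1
  rw [← hNd, ← hKd, ← hPd]
  obtain ⟨n, hnd⟩ : ∃ n : ℕ, n = S.card := ⟨_, rfl⟩
  rw [← hnd] at hE1 hE2
  obtain ⟨J, hJd⟩ : ∃ J : ℕ, J = Nat.log 2 N + 1 := ⟨_, rfl⟩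
  rw [← hJd] at hE1 hEN1
  have hJ1 : 1 ≤ J := by omega
  have hn1 : 1 ≤ n := by
    by_contra h
    have h0 : n = 0 := by omega
    rw [h0] at hE1
    have : 0 < N ^ 4 := by positivity
    simp at hE1
    omega
  obtain ⟨E, hEd⟩ : ∃ E : ℕ, E = en A := ⟨_, rfl⟩
  rw [← hEd] at hEN1 hCS1
  have hEpos : 1 ≤ E := by
    by_contra h
    have h0 : E = 0 := by omega
    rw [h0] at hCS1
    have : 0 < N ^ 4 := by positivity
    simp at hCS1
    omega
  -- real casts
  have rN : (1 : ℝ) ≤ N := by exact_mod_cast hN1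
  have rK : (1 : ℝ) ≤ K := by exact_mod_cast hK1
  have rP : (1 : ℝ) ≤ P := by exact_mod_cast hP1
  have rT : (1 : ℝ) ≤ T := by exact_mod_cast hT1
  have rn : (1 : ℝ) ≤ n := by exact_mod_cast hn1
  have rJ : (1 : ℝ) ≤ J := by exact_mod_cast hJ1
  have rE : (1 : ℝ) ≤ E := by exact_mod_cast hEpos
  have rNK : (N : ℝ) ≤ K := by exact_mod_cast hNK
  have rTN : (T : ℝ) ≤ N := by exact_mod_cast hTN
  have rE1 : (N : ℝ) ^ 4 ≤ 4 * P * J * (n * T ^ 2) := by exact_mod_cast hE1
  have rE2 : (n : ℝ) * T ≤ N ^ 2 := by exact_mod_cast hE2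
  have rEN : (E : ℝ) ≤ 8 * K ^ 2 * J := by exact_mod_cast hEN1
  have rCS : (N : ℝ) ^ 4 ≤ P * E := by exact_mod_cast hCS1
  -- logs
  obtain ⟨L, hL⟩ : ∃ L : ℝ, L = Real.log N := ⟨_, rfl⟩
  obtain ⟨s, hs⟩ : ∃ s : ℝ, s = Real.log K := ⟨_, rfl⟩
  obtain ⟨q, hq⟩ : ∃ q : ℝ, q = Real.log P := ⟨_, rfl⟩
  obtain ⟨j, hj⟩ : ∃ j : ℝ, j = Real.log J := ⟨_, rfl⟩
  obtain ⟨t, ht⟩ : ∃ t : ℝ, t = Real.log T := ⟨_, rfl⟩
  obtain ⟨ν, hν⟩ : ∃ ν : ℝ, ν = Real.log n := ⟨_, rfl⟩
  obtain ⟨jj, hjj⟩ : ∃ jj : ℝ, jj = Real.log (2 * (J : ℝ) + 1) := ⟨_, rfl⟩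
  have hL0 : 0 ≤ L := by rw [hL]; exact Real.log_nonneg rN
  have hLs : L ≤ s := by rw [hL, hs]; exact Real.log_le_log (by linarith) rNK
  have hjjj : j ≤ jj := by
    rw [hj, hjj]
    exact Real.log_le_log (by linarith) (by linarith)
  have hjjη : jj ≤ η * (3 + 4 * L) - Real.log η := by
    have := lj_le hη N hN1
    rw [hjj, hL, hJd]
    push_cast
    exact this
  have e4 : Real.log 4 = 2 * Real.log 2 := by
    rw [show (4 : ℝ) = 2 ^ 2 by norm_num, Real.log_pow]
    push_cast
    ring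
  have lE1 : 4 * L ≤ 2 * Real.log 2 + q + j + (ν + 2 * t) := by
    have h := Real.log_le_log (by positivity) rE1
    rw [Real.log_pow, Real.log_mul (by positivity) (by positivity),
      Real.log_mul (by positivity) (by positivity), Real.log_mul (by positivity) (by positivity),
      Real.log_mul (by positivity) (by positivity), Real.log_pow, e4] at h
    push_cast at h
    rw [hL, hq, hj, hν, ht]
    linarith
  have lE2 : ν + t ≤ 2 * L := by
    have h := Real.log_le_log (by positivity) rE2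
    rw [Real.log_mul (by positivity) (by positivity), Real.log_pow] at h
    push_cast at h
    rw [hL, hν, ht]
    linarith
  -- the choice of M
  obtain ⟨M, hMd⟩ : ∃ M : ℕ, M = max 2 ⌈16 * (K : ℝ) ^ 2 / (n * T ^ 2)⌉₊ := ⟨_, rfl⟩
  have hM2 : 2 ≤ M := by rw [hMd]; exact le_max_left _ _
  have hMr : 16 * (K : ℝ) ^ 2 / (n * T ^ 2) ≤ M := by
    refine (Nat.le_ceil _).trans ?_
    rw [hMd]
    exact_mod_cast le_max_right _ _
  have hM16 : 16 * K ^ 2 ≤ M * n * T ^ 2 := by
    rw [div_le_iff₀ (by positivity)] at hMr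
    have : (16 * (K : ℝ) ^ 2) ≤ M * n * T ^ 2 := by linarith
    exact_mod_cast this
  have hMup : (M : ℝ) ≤ 80 * K ^ 2 * P * J / N ^ 4 := by
    have h1 : (M : ℝ) ≤ 16 * (K : ℝ) ^ 2 / (n * T ^ 2) + 2 := by
      rw [hMd, Nat.cast_max]
      refine max_le ?_ ?_
      · have : 0 ≤ 16 * (K : ℝ) ^ 2 / (n * T ^ 2) := by positivity
        push_cast
        linarith
      · have := (Nat.ceil_lt_add_one (show 0 ≤ 16 * (K : ℝ) ^ 2 / (n * T ^ 2) by positivity)).le
        linarith
    have h2 : 16 * (K : ℝ) ^ 2 / (n * T ^ 2) ≤ 64 * K ^ 2 * P * J / N ^ 4 := by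
      rw [div_le_div_iff₀ (by positivity) (by positivity)]
      calc 16 * (K : ℝ) ^ 2 * N ^ 4 ≤ 16 * (K : ℝ) ^ 2 * (4 * P * J * (n * T ^ 2)) :=
            mul_le_mul_of_nonneg_left rE1 (by positivity)
        _ = 64 * K ^ 2 * P * J * (n * T ^ 2) := by ring
    have h3 : (2 : ℝ) ≤ 16 * K ^ 2 * P * J / N ^ 4 := by
      rw [le_div_iff₀ (by positivity)]
      calc 2 * (N : ℝ) ^ 4 ≤ 2 * (P * E) := by linarith
        _ ≤ 2 * (P * (8 * K ^ 2 * J)) := by
          have := mul_le_mul_of_nonneg_left rEN (show (0 : ℝ) ≤ P by linarith)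
          linarith
        _ = 16 * K ^ 2 * P * J := by ring
    have h4 : 64 * (K : ℝ) ^ 2 * P * J / N ^ 4 + 16 * K ^ 2 * P * J / N ^ 4 =
        80 * K ^ 2 * P * J / N ^ 4 := by ring
    linarith
  rcases le_or_gt M n with hMn | hMn
  · -- first case
    have h1 := hAS1 M hA hpos hT1 hM2 (by rw [← hnd]; exact hMn) hS
      (by rw [← hnd, ← hKd]; exact hM16)
    rw [← hNd, ← hPd, ← hnd, ← hEd] at h1
    have rM : (1 : ℝ) ≤ M := by exact_mod_cast (by omega : 1 ≤ M)
    have g1 : Real.log ((T : ℝ) ^ 2 / (16 * (M : ℝ) ^ 2)) = 2 * t - 4 * Real.log 2 - 2 * Real.log M := by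
      rw [Real.log_div (by positivity) (by positivity), Real.log_mul (by norm_num) (by positivity),
        Real.log_pow, Real.log_pow, show (16 : ℝ) = 2 ^ 4 by norm_num, Real.log_pow, ht]
      push_cast
      ring
    have g2 : Real.log ((2 * T : ℕ) : ℝ) = Real.log 2 + t := by
      push_cast
      rw [Real.log_mul (by norm_num) (by positivity), ht]
    have g3 : Real.log ((n : ℝ) / 64) = ν - 6 * Real.log 2 := by
      rw [Real.log_div (by positivity) (by norm_num), show (64 : ℝ) = 2 ^ 6 by norm_num,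
        Real.log_pow, hν]
      push_cast
      ring
    have g4 : Real.log (E : ℝ) ≤ 3 * Real.log 2 + 2 * s + j := by
      have h := Real.log_le_log (by positivity) rEN
      rw [Real.log_mul (by positivity) (by positivity), Real.log_mul (by positivity) (by positivity),
        Real.log_pow, show (8 : ℝ) = 2 ^ 3 by norm_num, Real.log_pow] at h
      push_cast at h
      rw [hs, hj]
      linarith
    have g5 : Real.log (M : ℝ) ≤ Real.log 80 + 2 * s + q + j - 4 * L := by
      have h := Real.log_le_log (by positivity) hMup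
      rw [Real.log_div (by positivity) (by positivity), Real.log_mul (by positivity) (by positivity),
        Real.log_mul (by positivity) (by positivity), Real.log_mul (by positivity) (by positivity),
        Real.log_pow, Real.log_pow] at h
      push_cast at h
      rw [hs, hq, hj, hL]
      linarith
    have g6 : Cst (2 * T) ≤ Real.log 4097 + jj := by
      rw [hjj]
      refine Cst_le ?_
      have : Nat.log 2 (2 * T) = Nat.log 2 T + 1 := by
        rw [mul_comm]
        exact Nat.log_mul_base (by norm_num) (by omega)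
      have h2 : Nat.log 2 T ≤ Nat.log 2 N := Nat.log_mono_right hTN
      omega
    have g7 : Cst P ≤ Real.log 4097 + jj := by
      rw [hjj]
      refine Cst_le ?_
      have h2 : N < 2 ^ J := by rw [hJd]; exact Nat.lt_pow_succ_log_self (by norm_num) N
      have h3 : P < 2 ^ (2 * J) := by
        calc P ≤ N * N := hPN
          _ < 2 ^ J * 2 ^ J := Nat.mul_lt_mul'' h2 h2
          _ = 2 ^ (2 * J) := by rw [← pow_add]; congr 1; ring
      have h4 : Nat.log 2 P < 2 * J := Nat.log_lt_of_lt_pow (by omega) h3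
      omega
    rw [g1, g2, g3] at h1
    rw [← hL, ← hq] at h1
    have hfin : 540 * L ≤ 158 * q + 246 * s + (417 * Real.log 2 + 120 * Real.log 80 +
        13 * Real.log 4097) + 154 * jj := by
      linarith
    have hfin2 : 154 * jj ≤ 154 * (3 * η - Real.log η) + 2 * (δ * L) := by
      have h5 : 616 * η * L ≤ 2 * (δ * L) := by
        have : 616 * η ≤ 2 * δ := by rw [hηd]; linarith
        nlinarith
      nlinarith
    have hab := le_abs_self (417 * Real.log 2 + 120 * Real.log 80 + 13 * Real.log 4097 +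
      154 * (3 * η - Real.log η))
    have hab2 := abs_nonneg (417 * Real.log 2 + 120 * Real.log 80 + 13 * Real.log 4097 +
      154 * (3 * η - Real.log η))
    have hab3 := abs_nonneg (79 * Real.log 18 + 79 * (3 * η - Real.log η))
    rw [← hL, ← hs, ← hq]
    linarith
  · -- second case
    have k1 : (n : ℝ) ≤ 80 * K ^ 2 * P * J / N ^ 4 := by
      have : (n : ℝ) ≤ M := by exact_mod_cast hMn.le
      exact this.trans hMup
    have k2 : ν ≤ Real.log 80 + 2 * s + q + j - 4 * L := by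
      have h := Real.log_le_log (by positivity) k1
      rw [Real.log_div (by positivity) (by positivity), Real.log_mul (by positivity) (by positivity),
        Real.log_mul (by positivity) (by positivity), Real.log_mul (by positivity) (by positivity),
        Real.log_pow, Real.log_pow] at h
      push_cast at h
      rw [hs, hq, hj, hL, hν]
      linarith
    have k3 : t ≤ L := by rw [ht, hL]; exact Real.log_le_log (by linarith) rTN
    have k4 : Real.log 80 + 2 * Real.log 2 ≤ 2 * Real.log 18 := by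
      have h1 : Real.log 80 + 2 * Real.log 2 = Real.log (80 * 2 ^ 2) := by
        rw [Real.log_mul (by norm_num) (by norm_num), Real.log_pow]
        push_cast
        ring
      have h2 : 2 * Real.log 18 = Real.log (18 ^ 2) := by
        rw [Real.log_pow]
        push_cast
        ring
      rw [h1, h2]
      exact Real.log_le_log (by norm_num) (by norm_num)
    have k5 : 3 * L ≤ Real.log 18 + s + q + j := by linarith
    have hab := le_abs_self (79 * Real.log 18 + 79 * (3 * η - Real.log η))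
    have hab3 := abs_nonneg (417 * Real.log 2 + 120 * Real.log 80 + 13 * Real.log 4097 +
      154 * (3 * η - Real.log η))
    have k6 : 79 * jj ≤ 79 * (3 * η - Real.log η) + δ * L := by
      have h5 : 316 * η * L ≤ δ * L := by
        have : 316 * η ≤ δ := by rw [hηd]; linarith
        nlinarith
      nlinarith
    rw [← hL, ← hs, ← hq]
    linarith

theorem tPO (hAS : S_AS) (hDY : S_DY) (hEN : S_EN) (hCS : S_CS) : S_PO := by
  intro δ hδ
  obtain ⟨C, hC⟩ : ∃ C : ℝ, C = |417 * Real.log 2 + 120 * Real.log 80 + 13 * Real.log 4097 +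
        154 * (3 * (δ / 400) - Real.log (δ / 400))| +
      |79 * Real.log 18 + 79 * (3 * (δ / 400) - Real.log (δ / 400))| := ⟨_, rfl⟩
  refine ⟨Real.exp (-C), Real.exp_pos _, ?_⟩
  intro A hA hpos
  have h := main hAS hDY hEN hCS hδ A hA hpos
  rw [← hC] at h
  have hN : (0 : ℝ) < A.card := by exact_mod_cast hA.card_pos
  have hK : (0 : ℝ) < (A + A).card := by exact_mod_cast (hA.add hA).card_pos
  have hP : (0 : ℝ) < (A * A).card := by exact_mod_cast (hA.mul hA).card_pos
  have e1 : (A.card : ℝ) ^ (270 - δ) = Real.exp ((270 - δ) * Real.log A.card) := by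
    rw [Real.rpow_def_of_pos hN, mul_comm]
  have e2 : ((A + A).card : ℝ) ^ 123 = Real.exp (123 * Real.log (A + A).card) := by
    rw [show (123 : ℝ) * Real.log (A + A).card = ((123 : ℕ) : ℝ) * Real.log (A + A).card by norm_num,
      Real.exp_nat_mul, Real.exp_log hK]
  have e3 : ((A * A).card : ℝ) ^ 79 = Real.exp (79 * Real.log (A * A).card) := by
    rw [show (79 : ℝ) * Real.log (A * A).card = ((79 : ℕ) : ℝ) * Real.log (A * A).card by norm_num,
      Real.exp_nat_mul, Real.exp_log hP]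
  rw [e1, e2, e3, ← Real.exp_add, ← Real.exp_add]
  exact Real.exp_le_exp.2 (by linarith)

end Pool.Agent.W372.SP
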